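import Pool.Agent.Helper34.ST.Basic

/-!
Module MMCI: integral costs.
-/

set_option autoImplicit false

namespace Pool.Agent.Helper34.ST

open Finset

theorem mmci_bound {ι : Type} [Fintype ι] (f : ι → ℤ) : ∃ B : ℕ, ∀ u, -(B : ℤ) < f u ∧ f u < B := by
  obtain ⟨S, hS⟩ : ∃ S : ℕ, ∀ u, (f u).natAbs ≤ S :=
    ⟨∑ u, (f u).natAbs, fun u =>
      single_le_sum (f := fun u => (f u).natAbs) (fun _ _ => Nat.zero_le _) (mem_univ u)⟩
  refine ⟨1 + S, fun u => ?_⟩
  have h := hS u
  omega

/-- the double counting -/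
theorem mmci_count {ι : Type} [Fintype ι] [DecidableEq ι] (f : ι → ℤ) (Z : ι → ℕ) (q M : ℕ)
    (a : ℤ) (G : ℤ → Finset ι) (hG : ∀ t u, u ∈ G t → f u < t ∧ t ≤ f u + Z u) :
    ∑ t ∈ range q, ∑ m ∈ range M, (G (a + t + m * q)).card ≤ ∑ u, Z u := by
  rw [← sum_product']
  have h1 : ∀ x ∈ range q ×ˢ range M, (G (a + (x.1 : ℤ) + x.2 * q)).card =
      ∑ u, if u ∈ G (a + (x.1 : ℤ) + x.2 * q) then 1 else 0 := by
    intro x _
    rw [sum_boole]
    simp
  rw [sum_congr rfl h1, sum_comm]
  refine sum_le_sum fun u _ => ?_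
  rw [sum_boole]
  have h2 : (Ioc (f u) (f u + Z u)).card = Z u := by
    rw [Int.card_Ioc]
    simp
  rw [Nat.cast_id]
  refine le_trans (card_le_card_of_injOn (t := Ioc (f u) (f u + Z u))
    (fun x => a + (x.1 : ℤ) + x.2 * q) ?_ ?_) h2.le
  · intro x hx
    simp only [coe_filter, Set.mem_ofPred_eq] at hx
    simp only [coe_Ioc, Set.mem_Ioc]
    exact hG _ _ hx.2
  · intro x hx y hy hxy
    simp only [coe_filter, mem_product, mem_range, Set.mem_ofPred_eq] at hx hy
    simp only at hxy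
    obtain ⟨x1, x2⟩ := x
    obtain ⟨y1, y2⟩ := y
    simp only at hx hy hxy
    have h3 : x1 + x2 * q = y1 + y2 * q := by
      have h4 : (x1 : ℤ) + x2 * q = y1 + y2 * q := by linarith
      exact_mod_cast h4
    have h5 : x1 = y1 := by
      have h6 := congrArg (fun n => n % q) h3
      simp only [Nat.add_mul_mod_self_right] at h6
      rwa [Nat.mod_eq_of_lt hx.1.1, Nat.mod_eq_of_lt hy.1.1] at h6
    subst h5
    have h7 : x2 * q = y2 * q := by omega
    have h8 : 0 < q := by omega
    have h9 : x2 = y2 := Nat.eq_of_mul_eq_mul_right h8 h7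
    rw [h9]

theorem st_MMCI (hchain : ST_CHAIN) (hpot : ST_POT) : ST_MMCI := by
  classical
  intro ι _ _ r d hd hW Z q hq hwalk
  obtain ⟨f, hf⟩ := hpot ι r (fun u => (Z u : ℤ) - q) q (fun u => by
      have : (0 : ℤ) ≤ Z u := Int.natCast_nonneg _
      linarith) (by
    intro L p h1 h2 h3 h4
    have h5 := hwalk L p h1 h2 h3 h4
    have h6 : (q : ℤ) * L ≤ ∑ i ∈ range L, (Z (p i) : ℤ) := by exact_mod_cast h5
    rw [sum_sub_distrib, sum_const, card_range, nsmul_eq_mul]
    linarith)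
  obtain ⟨B, hB⟩ := mmci_bound f
  let a : ℤ := -(B : ℤ) - q
  let G : ℤ → Finset ι := fun t => univ.filter (fun u => f u < t ∧ ¬ ∀ v, r u v → f v < t - q)
  have hGm : ∀ t u, u ∈ G t → f u < t ∧ t ≤ f u + Z u := by
    intro t u hu
    simp only [G, mem_filter, mem_univ, true_and] at hu
    obtain ⟨h1, h2⟩ := hu
    push Not at h2
    obtain ⟨v, hv, h3⟩ := h2
    have h4 := hf u v hv
    exact ⟨h1, by linarith⟩
  have hcount := mmci_count f Z q (2 * B + 3) a G hGm
  have hrow : ∀ t ∈ range q, 2 * d ≤ ∑ m ∈ range (2 * B + 3), ((G (a + t + m * q)).card : ℝ) := by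
    intro t ht
    have htq : t < q := mem_range.1 ht
    let Q : ℕ → Set ι := fun m => {u | f u < a + t + m * q}
    have hmono : Monotone Q := by
      intro m m' hmm u hu
      simp only [Q, Set.mem_ofPred_eq] at hu ⊢
      have h1 : (m : ℤ) * q ≤ m' * q := by
        exact_mod_cast Nat.mul_le_mul_right q hmm
      linarith
    have h0 : Q 0 = ∅ := by
      ext u
      simp only [Q, Set.mem_ofPred_eq, Set.mem_empty_iff_false, iff_false, not_lt, a]
      have h1 := (hB u).1
      have h2 : (t : ℤ) < q := by exact_mod_cast htq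
      push_cast
      linarith
    have hN : Q (2 * B + 1) = Set.univ := by
      ext u
      simp only [Q, Set.mem_ofPred_eq, Set.mem_univ, iff_true, a]
      have h1 := (hB u).2
      have h2 : (2 * (B : ℤ) + 1) * 1 ≤ (2 * (B : ℤ) + 1) * q := by
        refine mul_le_mul_of_nonneg_left (by exact_mod_cast hq) (by positivity)
      have h3 : (2 * (B : ℤ)) * 1 ≤ (2 * (B : ℤ)) * q := by
        refine mul_le_mul_of_nonneg_left (by exact_mod_cast hq) (by positivity)
      have h4 : (0 : ℤ) ≤ t := Int.natCast_nonneg _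
      push_cast
      linarith
    obtain ⟨m, hm, h2d⟩ := hchain ι r d hd hW Q (2 * B + 1) hmono h0 hN
    have hset : ∀ m : ℕ, (Q (m + 1) \ {u | ∀ v, r u v → v ∈ Q m}) =
        (G (a + t + ((m + 1 : ℕ) : ℤ) * q) : Set ι) := by
      intro m
      ext u
      simp only [Q, G, Set.mem_sdiff, Set.mem_ofPred_eq, coe_filter, mem_univ, true_and]
      have h1 : a + t + ((m + 1 : ℕ) : ℤ) * q - q = a + t + (m : ℤ) * q := by
        push_cast
        ring
      rw [h1]
    rw [hset m, hset (m + 1), Set.ncard_coe_finset, Set.ncard_coe_finset] at h2d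
    refine h2d.trans ?_
    have hsub : ({m + 1, m + 1 + 1} : Finset ℕ) ⊆ range (2 * B + 3) := by
      intro x hx
      simp only [mem_insert, mem_singleton] at hx
      rw [mem_range]
      omega
    refine le_trans ?_ (sum_le_sum_of_subset_of_nonneg hsub fun _ _ _ => Nat.cast_nonneg _)
    rw [sum_pair (by omega)]
  have hsum : ∑ t ∈ range q, 2 * d ≤
      ∑ t ∈ range q, ∑ m ∈ range (2 * B + 3), ((G (a + t + m * q)).card : ℝ) := sum_le_sum hrow
  rw [sum_const, card_range, nsmul_eq_mul] at hsum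
  have hcast : ∑ t ∈ range q, ∑ m ∈ range (2 * B + 3), ((G (a + t + m * q)).card : ℝ) ≤
      ∑ u, (Z u : ℝ) := by
    exact_mod_cast hcount
  linarith

end Pool.Agent.Helper34.ST
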